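import Pool.Agent.H379R3.Reg

/-!
# Flatness of the Frobenius map of a regular local ring (Kunz), elementary proof

Helper file (helper88) for `MP_9ff724_al`.
-/

set_option autoImplicit false

universe u v w

open IsLocalRing RingTheory.Sequence Function
open scoped Pointwise TensorProduct

namespace Pool.Agent.N88.FPR

/-- Weakly regular sequences and extensions of modules. -/
theorem isWeaklyRegular_ext {R : Type u} [CommRing R] (rs : List R) :
    ∀ {A B C : Type v} [AddCommGroup A] [Module R A] [AddCommGroup B] [Module R B]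
      [AddCommGroup C] [Module R C] (f : A →ₗ[R] B) (g : B →ₗ[R] C), Injective f → Exact f g →
      Surjective g → IsWeaklyRegular A rs → IsWeaklyRegular C rs → IsWeaklyRegular B rs := by
  induction rs with
  | nil =>
    intro A B C _ _ _ _ _ _ f g _ _ _ _ _
    exact IsWeaklyRegular.nil R B
  | cons r rs ih =>
    intro A B C _ _ _ _ _ _ f g hf hfg hg hA hC
    rw [isWeaklyRegular_cons_iff] at hA hC ⊢
    refine ⟨isSMulRegular_of_range_eq_ker hf (LinearMap.exact_iff.1 hfg).symm hA.1 hC.1, ?_⟩
    have h0 : Exact (0 : PUnit.{v+1} →ₗ[R] A) f := by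
      rw [LinearMap.exact_zero_iff_injective]
      exact hf
    have h1 : Exact (QuotSMulTop.map r (0 : PUnit.{v+1} →ₗ[R] A)) (QuotSMulTop.map r f) :=
      QuotSMulTop.map_first_exact_on_four_term_exact_of_isSMulRegular_last h0 hfg hC.1
    have h2 : Injective (QuotSMulTop.map r f) := by
      rw [map_zero] at h1
      rw [← LinearMap.exact_zero_iff_injective (QuotSMulTop r PUnit.{v+1})]
      exact h1
    exact ih (QuotSMulTop.map r f) (QuotSMulTop.map r g) h2 (QuotSMulTop.map_exact r hfg hg)
      (QuotSMulTop.map_surjective r hg) hA.2 hC.2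

/-- Powers of the first element. -/
theorem powers_aux {S : Type u} [CommRing S] {T : Type v} [CommRing T] [Algebra S T] (τ : T)
    (hτ : ∀ x : T, τ * x = 0 → x = 0) (rs : List S)
    (h1 : IsWeaklyRegular (T ⧸ Ideal.span {τ}) rs) (i : ℕ) :
    IsWeaklyRegular (T ⧸ Ideal.span {τ ^ (i + 1)}) rs := by
  have hτi : ∀ (i : ℕ) (x : T), τ ^ i * x = 0 → x = 0 := by
    intro i
    induction i with
    | zero => intro x hx; simpa using hx
    | succ i ih =>
      intro x hx
      refine hτ x (ih _ ?_)
      rw [← mul_assoc, ← pow_succ]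
      exact hx
  induction i with
  | zero =>
    have h0 : τ ^ (0 + 1) = τ := by ring
    rw [h0]
    exact h1
  | succ i ih =>
    have hf : Ideal.span {τ} ≤ Submodule.comap
        (LinearMap.mulLeft T (τ ^ (i + 1))) (Ideal.span {τ ^ (i + 1 + 1)}) := by
      rw [Ideal.span_singleton_le_iff_mem]
      change τ ^ (i + 1) * τ ∈ Ideal.span {τ ^ (i + 1 + 1)}
      rw [← pow_succ]
      exact Ideal.mem_span_singleton_self _
    have hg : Ideal.span {τ ^ (i + 1 + 1)} ≤ Submodule.comap
        (LinearMap.id : T →ₗ[T] T) (Ideal.span {τ ^ (i + 1)}) := by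
      rw [Ideal.span_singleton_le_iff_mem]
      change τ ^ (i + 1 + 1) ∈ Ideal.span {τ ^ (i + 1)}
      rw [pow_succ τ (i + 1)]
      exact Ideal.mul_mem_right _ _ (Ideal.mem_span_singleton_self _)
    let f : (T ⧸ Ideal.span {τ}) →ₗ[T] (T ⧸ Ideal.span {τ ^ (i + 1 + 1)}) :=
      Submodule.mapQ _ _ (LinearMap.mulLeft T (τ ^ (i + 1))) hf
    let g : (T ⧸ Ideal.span {τ ^ (i + 1 + 1)}) →ₗ[T] (T ⧸ Ideal.span {τ ^ (i + 1)}) :=
      Submodule.mapQ _ _ (LinearMap.id : T →ₗ[T] T) hg
    have hfx : ∀ x : T, f (Ideal.Quotient.mk _ x) = Ideal.Quotient.mk _ (τ ^ (i + 1) * x) :=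
      fun x => rfl
    have hgx : ∀ x : T, g (Ideal.Quotient.mk _ x) = Ideal.Quotient.mk _ x := fun x => rfl
    refine isWeaklyRegular_ext rs (f.restrictScalars S) (g.restrictScalars S) ?_ ?_ ?_ h1 ih
    · change Injective f
      rw [← LinearMap.ker_eq_bot, LinearMap.ker_eq_bot']
      intro y hy
      obtain ⟨x, rfl⟩ := Ideal.Quotient.mk_surjective y
      rw [hfx, Ideal.Quotient.eq_zero_iff_mem, Ideal.mem_span_singleton] at hy
      obtain ⟨c, hc⟩ := hy
      rw [Ideal.Quotient.eq_zero_iff_mem, Ideal.mem_span_singleton]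
      refine ⟨c, ?_⟩
      have := hτi (i + 1) (x - τ * c) (by rw [mul_sub, hc]; ring)
      linear_combination this
    · change Exact f g
      intro y
      obtain ⟨x, rfl⟩ := Ideal.Quotient.mk_surjective y
      constructor
      · intro hy
        rw [hgx, Ideal.Quotient.eq_zero_iff_mem, Ideal.mem_span_singleton] at hy
        obtain ⟨c, hc⟩ := hy
        exact ⟨Ideal.Quotient.mk _ c, by rw [hfx, hc]⟩
      · rintro ⟨z, hz⟩
        obtain ⟨c, rfl⟩ := Ideal.Quotient.mk_surjective z
        rw [← hz, hfx, hgx, Ideal.Quotient.eq_zero_iff_mem]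
        exact Ideal.mul_mem_right _ _ (Ideal.mem_span_singleton_self _)
    · change Surjective g
      intro y
      obtain ⟨x, rfl⟩ := Ideal.Quotient.mk_surjective y
      exact ⟨Ideal.Quotient.mk _ x, rfl⟩

theorem frob_weaklyRegular (q : ℕ) (hq : q ≠ 0) (d : ℕ) : ∀ (S : Type u) [CommRing S]
    [IsRegularLocalRing S] (T : Type v) [CommRing T] [Algebra S T] (ψ : S ≃+* T),
    (∀ s, algebraMap S T s = ψ s ^ q) → ringKrullDim S = (d : ℕ) →
    ∃ rs : List S, Ideal.ofList rs = maximalIdeal S ∧ IsWeaklyRegular T rs := by
  induction d with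
  | zero =>
    intro S _ _ T _ _ ψ hψ h
    refine ⟨[], ?_, IsWeaklyRegular.nil S T⟩
    rw [Pool.Agent.H379R3.dim_zero_maximalIdeal_eq_bot h, Ideal.ofList_nil]
  | succ d ih =>
    intro S _ _ T _ _ ψ hψ h
    have hdom : IsDomain S := Pool.Agent.H379R3.isDomain S
    set m := maximalIdeal S with hm
    have hmb : m ≠ ⊥ := by
      intro h0
      have h2 : IsField S := isField_iff_maximalIdeal_eq.2 h0
      have := ringKrullDim_eq_zero_of_isField h2
      rw [h] at this
      have h3 : d + 1 = 0 := by exact_mod_cast this
      omega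
    have hsq : ¬ (m ≤ m ^ 2) := by
      intro hle
      apply hmb
      apply Submodule.eq_bot_of_le_smul_of_le_jacobson_bot m m m.fg_of_isNoetherianRing
      · rw [smul_eq_mul, ← pow_two]; exact hle
      · exact IsLocalRing.maximalIdeal_le_jacobson _
    obtain ⟨t, htm, ht2⟩ := SetLike.not_le_iff_exists.1 hsq
    obtain ⟨hreg, hdim⟩ := Pool.Agent.H379R3.regular_quotient t htm ht2 d h
    have ht0 : t ≠ 0 := by
      rintro rfl
      exact ht2 (zero_mem _)
    -- the quotients
    let Ib : Ideal T := Ideal.span {ψ t}
    have hmap : Ideal.span {t} ≤ Ib.comap (algebraMap S T) := by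
      rw [Ideal.span_singleton_le_iff_mem, Ideal.mem_comap, hψ]
      exact Ideal.pow_mem_of_mem _ (Ideal.mem_span_singleton_self _) _ (Nat.pos_of_ne_zero hq)
    let alg : Algebra (S ⧸ Ideal.span {t}) (T ⧸ Ib) :=
      (Ideal.quotientMap Ib (algebraMap S T) hmap).toAlgebra
    have halg : ∀ s : S, algebraMap (S ⧸ Ideal.span {t}) (T ⧸ Ib) (Ideal.Quotient.mk _ s) =
        Ideal.Quotient.mk _ (algebraMap S T s) := fun s => rfl
    have hIb : Ib = (Ideal.span {t}).map (ψ : S →+* T) := by
      rw [Ideal.map_span, Set.image_singleton]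
      rfl
    let ψb : (S ⧸ Ideal.span {t}) ≃+* (T ⧸ Ib) := Ideal.quotientEquiv _ _ ψ hIb
    have hψb : ∀ s : S, ψb (Ideal.Quotient.mk _ s) = Ideal.Quotient.mk _ (ψ s) := fun s => rfl
    obtain ⟨rs', hof, hwr⟩ := ih (S ⧸ Ideal.span {t}) (T ⧸ Ib) ψb (by
      intro s
      obtain ⟨s, rfl⟩ := Ideal.Quotient.mk_surjective s
      rw [halg, hψb, hψ, map_pow]) hdim
    set lft : S ⧸ Ideal.span {t} → S := Function.surjInv Ideal.Quotient.mk_surjective with hlft
    have hl : ∀ r, Ideal.Quotient.mk (Ideal.span {t}) (lft r) = r :=
      Function.surjInv_eq Ideal.Quotient.mk_surjective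
    have hmapl : (rs'.map lft).map (Ideal.Quotient.mk (Ideal.span {t})) = rs' := by
      rw [List.map_map]
      conv_rhs => rw [← List.map_id rs']
      refine List.map_congr_left fun r _ => ?_
      exact hl r
    refine ⟨t :: rs'.map lft, ?_, ?_⟩
    · rw [Ideal.ofList_cons]
      have h1 : (Ideal.ofList (rs'.map lft)).map (Ideal.Quotient.mk (Ideal.span {t})) =
          m.map (Ideal.Quotient.mk (Ideal.span {t})) := by
        rw [Ideal.map_ofList, hmapl, hof, Pool.Agent.H379R3.map_mk_maximalIdeal]
      have h2 := congrArg (Ideal.comap (Ideal.Quotient.mk (Ideal.span {t}))) h1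
      rw [Ideal.comap_map_of_surjective _ Ideal.Quotient.mk_surjective,
        Ideal.comap_map_of_surjective _ Ideal.Quotient.mk_surjective,
        ← RingHom.ker_eq_comap_bot, Ideal.mk_ker] at h2
      rw [sup_comm, h2, sup_eq_left, Ideal.span_singleton_le_iff_mem]
      exact htm
    · rw [isWeaklyRegular_cons_iff]
      have hτ : ∀ x : T, ψ t * x = 0 → x = 0 := by
        intro x hx
        have h3 := congrArg ψ.symm hx
        rw [map_mul, ψ.symm_apply_apply, map_zero] at h3
        have h4 := (mul_eq_zero.1 h3).resolve_left ht0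
        simpa using h4
      have hτi : ∀ (i : ℕ) (x : T), ψ t ^ i * x = 0 → x = 0 := by
        intro i
        induction i with
        | zero => intro x hx; simpa using hx
        | succ i ih =>
          intro x hx
          refine hτ x (ih _ ?_)
          rw [← mul_assoc, ← pow_succ]
          exact hx
      constructor
      · refine IsSMulRegular.of_right_eq_zero_of_smul ?_
        intro x hx
        rw [Algebra.smul_def, hψ] at hx
        exact hτi q x hx
      · have hb : IsWeaklyRegular (T ⧸ Ideal.span {ψ t}) (rs'.map lft) := by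
          refine (AddEquiv.isWeaklyRegular_congr (e := AddEquiv.refl (T ⧸ Ib)) ?_).2 hwr
          rw [List.forall₂_map_left_iff]
          refine List.forall₂_same.2 fun r _ x => ?_
          obtain ⟨x, rfl⟩ := Ideal.Quotient.mk_surjective x
          rw [AddEquiv.refl_apply, AddEquiv.refl_apply, Algebra.smul_def, Algebra.smul_def]
          conv_rhs => rw [← hl r]
          rw [halg]
          rfl
        obtain ⟨j, rfl⟩ := Nat.exists_eq_succ_of_ne_zero hq
        have h5 := powers_aux (ψ t) hτ (rs'.map lft) hb j
        have h6 : (t • (⊤ : Submodule S T)) =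
            (Ideal.span {ψ t ^ (j + 1)}).restrictScalars S := by
          ext x
          rw [Submodule.mem_smul_pointwise_iff_exists, Submodule.restrictScalars_mem,
            Ideal.mem_span_singleton']
          constructor
          · rintro ⟨y, -, rfl⟩
            exact ⟨y, by rw [Algebra.smul_def, hψ, mul_comm]⟩
          · rintro ⟨y, rfl⟩
            exact ⟨y, Submodule.mem_top, by rw [Algebra.smul_def, hψ, mul_comm]⟩
        have e : QuotSMulTop t T ≃ₗ[S] (T ⧸ Ideal.span {ψ t ^ (j + 1)}) :=
          (Submodule.quotEquivOfEq _ _ h6).trans (Submodule.Quotient.restrictScalarsEquiv S _)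
        exact (e.isWeaklyRegular_congr _).2 h5

section

variable {S : Type u} [CommRing S] (T : Type v) [AddCommGroup T] [Module S T]

/-- the map `T ⊗ I → T` -/
noncomputable def mu (I : Ideal S) : T ⊗[S] I →ₗ[S] T :=
  (TensorProduct.rid S T).toLinearMap ∘ₗ (I.subtype.lTensor T)

@[simp] theorem mu_tmul (I : Ideal S) (x : T) (a : I) : mu T I (x ⊗ₜ a) = (a : S) • x := by
  simp [mu]

theorem mu_injective_iff (I : Ideal S) :
    Injective (mu T I) ↔ Injective (I.subtype.lTensor T) := by
  unfold mu
  rw [LinearMap.coe_comp]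
  exact ⟨fun h => h.of_comp, fun h => (TensorProduct.rid S T).injective.comp h⟩

/-- the map `T ⊗ I → T ⊗ J` for `I ≤ J` -/
noncomputable def io {I J : Ideal S} (h : I ≤ J) : T ⊗[S] I →ₗ[S] T ⊗[S] J :=
  (Submodule.inclusion h).lTensor T

@[simp] theorem io_tmul {I J : Ideal S} (h : I ≤ J) (x : T) (a : I) :
    io T h (x ⊗ₜ a) = x ⊗ₜ ⟨a, h a.2⟩ := rfl

theorem mu_io {I J : Ideal S} (h : I ≤ J) (u : T ⊗[S] I) : mu T J (io T h u) = mu T I u := by
  induction u using TensorProduct.induction_on with
  | zero => simp
  | tmul x a => simp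
  | add x y hx hy => rw [map_add, map_add, map_add, hx, hy]

/-- elements of `T ⊗ (I ⊔ (x))` -/
theorem exists_sup {I J : Ideal S} (x : S) (hJ : J = I ⊔ Ideal.span {x}) (hI : I ≤ J)
    (hx : x ∈ J) (u : T ⊗[S] J) : ∃ (u' : T ⊗[S] I) (m : T), u = io T hI u' + m ⊗ₜ ⟨x, hx⟩ := by
  induction u using TensorProduct.induction_on with
  | zero => exact ⟨0, 0, by simp⟩
  | tmul y a =>
    obtain ⟨a, ha⟩ := a
    have ha' := ha
    rw [hJ] at ha'
    obtain ⟨b, hb, c, hc, hbc⟩ := Submodule.mem_sup.1 ha'
    obtain ⟨s, rfl⟩ := Ideal.mem_span_singleton'.1 hc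
    refine ⟨y ⊗ₜ ⟨b, hb⟩, s • y, ?_⟩
    rw [io_tmul, TensorProduct.smul_tmul, ← TensorProduct.tmul_add]
    congr 1
    exact Subtype.ext hbc.symm
  | add u v hu hv =>
    obtain ⟨u', m, rfl⟩ := hu
    obtain ⟨v', n, rfl⟩ := hv
    refine ⟨u' + v', m + n, ?_⟩
    rw [map_add, TensorProduct.add_tmul]
    abel

/-- For a weakly regular sequence the map `T ⊗ (x₁, …, x_r) → T` is injective. -/
theorem mu_injective_of_regular (rs : List S) (h : IsWeaklyRegular T rs) :
    Injective (mu T (Ideal.ofList rs)) := by
  induction rs using List.reverseRecOn with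
  | nil =>
    have h0 : ∀ u : T ⊗[S] (Ideal.ofList ([] : List S)), u = 0 := by
      intro u
      induction u using TensorProduct.induction_on with
      | zero => rfl
      | tmul y a =>
        obtain ⟨a, ha⟩ := a
        have ha' := ha
        rw [Ideal.ofList_nil, Ideal.mem_bot] at ha'
        have : (⟨a, ha⟩ : Ideal.ofList ([] : List S)) = 0 := Subtype.ext ha'
        rw [this, TensorProduct.tmul_zero]
      | add u v hu hv => rw [hu, hv, add_zero]
    intro u v _
    rw [h0 u, h0 v]
  | append_singleton rs x ih =>
    rw [isWeaklyRegular_append_iff, isWeaklyRegular_singleton_iff] at h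
    have ih := ih h.1
    have hJ : Ideal.ofList (rs ++ [x]) = Ideal.ofList rs ⊔ Ideal.span {x} := by
      rw [Ideal.ofList_append, Ideal.ofList_singleton]
    have hI : Ideal.ofList rs ≤ Ideal.ofList (rs ++ [x]) := by
      rw [hJ]; exact le_sup_left
    have hx : x ∈ Ideal.ofList (rs ++ [x]) := by
      rw [hJ]; exact Ideal.mem_sup_right (Ideal.mem_span_singleton_self x)
    rw [injective_iff_map_eq_zero]
    intro u hu
    obtain ⟨u', m, rfl⟩ := exists_sup T x hJ hI hx u
    rw [map_add, mu_io, mu_tmul] at hu
    have hmu : ∀ w : T ⊗[S] (Ideal.ofList rs), mu T (Ideal.ofList rs) w ∈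
        (Ideal.ofList rs • (⊤ : Submodule S T)) := by
      intro w
      induction w using TensorProduct.induction_on with
      | zero => simp
      | tmul y a =>
        rw [mu_tmul]
        exact Submodule.smul_mem_smul a.2 Submodule.mem_top
      | add a b ha hb => rw [map_add]; exact add_mem ha hb
    have hxm : x • m ∈ (Ideal.ofList rs • (⊤ : Submodule S T)) := by
      have : x • m = - mu T (Ideal.ofList rs) u' := by
        rw [eq_neg_iff_add_eq_zero, add_comm]; exact hu
      rw [this]
      exact neg_mem (hmu u')
    have hm : m ∈ (Ideal.ofList rs • (⊤ : Submodule S T)) :=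
      mem_of_isSMulRegular_quotient_of_smul_mem h.2 hxm
    have hw : ∃ w : T ⊗[S] (Ideal.ofList rs), io T hI w = m ⊗ₜ ⟨x, hx⟩ := by
      clear hxm hu
      refine Submodule.smul_induction_on hm ?_ ?_
      · intro a ha y _
        refine ⟨(x • y) ⊗ₜ ⟨a, ha⟩, ?_⟩
        rw [io_tmul, TensorProduct.smul_tmul, TensorProduct.smul_tmul]
        congr 1
        exact Subtype.ext (by simp [mul_comm])
      · rintro y z ⟨w1, h1⟩ ⟨w2, h2⟩
        exact ⟨w1 + w2, by rw [map_add, h1, h2, TensorProduct.add_tmul]⟩
    obtain ⟨w, hw⟩ := hw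
    rw [← hw, ← map_add]
    have h0 : u' + w = 0 := by
      rw [injective_iff_map_eq_zero] at ih
      apply ih
      rw [map_add, ← mu_io T hI w, hw, mu_tmul]
      exact hu
    rw [h0, map_zero]

end

/-- **The local criterion of flatness**, for a homomorphism of Noetherian local rings. -/
theorem flat_of_local {S : Type u} [CommRing S] [IsLocalRing S] [IsNoetherianRing S]
    (T : Type v) [CommRing T] [IsLocalRing T] [IsNoetherianRing T] [Algebra S T]
    (hloc : (maximalIdeal S).map (algebraMap S T) ≤ maximalIdeal T)
    (hn : Injective (mu T (maximalIdeal S))) : Module.Flat S T := by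
  have hn' : Injective ((maximalIdeal S).subtype.lTensor T) := (mu_injective_iff T _).1 hn
  -- ideals containing a power of the maximal ideal
  have hA : ∀ I : Ideal S, (∃ k : ℕ, maximalIdeal S ^ k ≤ I) → Injective (mu T I) := by
    intro I
    induction I using WellFoundedGT.induction with
    | ind I ih =>
      rintro ⟨k, hk⟩
      by_cases hI : I = ⊤
      · subst hI
        rw [mu_injective_iff]
        have : (Submodule.subtype (⊤ : Ideal S)) = (Submodule.topEquiv : _ ≃ₗ[S] S).toLinearMap :=
          rfl
        rw [this]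
        exact ((Submodule.topEquiv : (⊤ : Ideal S) ≃ₗ[S] S).lTensor T).injective
      · -- an element `a ∉ I` with `n a ⊆ I`
        obtain ⟨a, haI, hna⟩ : ∃ a ∉ I, ∀ r ∈ maximalIdeal S, r * a ∈ I := by
          classical
          have hex : ∃ j, maximalIdeal S ^ j ≤ I := ⟨k, hk⟩
          have hj := Nat.find_spec hex
          have hj0 : Nat.find hex ≠ 0 := by
            intro h0
            rw [h0, pow_zero, Ideal.one_eq_top, top_le_iff] at hj
            exact hI hj
          obtain ⟨j, hjj⟩ := Nat.exists_eq_succ_of_ne_zero hj0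
          have hj' : ¬ (maximalIdeal S ^ j ≤ I) := Nat.find_min hex (by omega)
          obtain ⟨a, ha1, ha2⟩ := SetLike.not_le_iff_exists.1 hj'
          refine ⟨a, ha2, fun r hr => hj ?_⟩
          rw [hjj, Nat.succ_eq_add_one, pow_succ, mul_comm]
          exact Ideal.mul_mem_mul hr ha1
        let J : Ideal S := I ⊔ Ideal.span {a}
        have hIJ : I ≤ J := le_sup_left
        have haJ : a ∈ J := Ideal.mem_sup_right (Ideal.mem_span_singleton_self a)
        have hlt : I < J := lt_of_le_of_ne hIJ fun h => haI (h ▸ haJ)
        have hJ := ih J hlt ⟨k, hk.trans hIJ⟩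
        rw [injective_iff_map_eq_zero]
        intro u hu
        have h1 : io T hIJ u = 0 := by
          rw [injective_iff_map_eq_zero] at hJ
          exact hJ _ (by rw [mu_io, hu])
        -- the presentation of `J`
        let h : (I × S) →ₗ[S] J := LinearMap.coprod (Submodule.inclusion hIJ)
          (LinearMap.toSpanSingleton S J ⟨a, haJ⟩)
        let κ : maximalIdeal S →ₗ[S] (I × S) :=
          LinearMap.prod (-(LinearMap.codRestrict I
            ((LinearMap.mulRight S a).comp (maximalIdeal S).subtype) fun r => hna r r.2))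
            (maximalIdeal S).subtype
        have hh : ∀ (i : I) (s : S), ((h (i, s) : J) : S) = i + s * a := fun i s => rfl
        have hκ : ∀ r : maximalIdeal S, κ r = (-⟨(r : S) * a, hna r r.2⟩, (r : S)) := fun r => rfl
        have hsur : Surjective h := by
          rintro ⟨y, hy⟩
          obtain ⟨b, hb, c, hc, rfl⟩ := Submodule.mem_sup.1 hy
          obtain ⟨s, rfl⟩ := Ideal.mem_span_singleton'.1 hc
          exact ⟨(⟨b, hb⟩, s), Subtype.ext rfl⟩
        have hex : Exact κ h := by
          rintro ⟨i, s⟩
          constructor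
          · intro h0
            have h2 : (i : S) + s * a = 0 := by
              rw [← hh, h0]; rfl
            have hs : s ∈ maximalIdeal S := by
              by_contra hs
              have hu : IsUnit s := by
                by_contra hu
                exact hs ((mem_maximalIdeal _).2 hu)
              apply haI
              have h3 : s * a ∈ I := by
                have : s * a = -(i : S) := by linear_combination h2
                rw [this]; exact neg_mem i.2
              exact (Ideal.unit_mul_mem_iff_mem I hu).1 h3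
            refine ⟨⟨s, hs⟩, ?_⟩
            rw [hκ]
            refine Prod.ext (Subtype.ext ?_) rfl
            change -(s * a) = i
            linear_combination -h2
          · rintro ⟨r, hr⟩
            rw [← hr, hκ]
            apply Subtype.ext
            rw [hh]
            change -((r : S) * a) + r * a = 0
            ring
        have hex2 := lTensor_exact T hex hsur
        have h4 : (h.lTensor T) ((LinearMap.inl S I S).lTensor T u) = 0 := by
          rw [← LinearMap.comp_apply, ← LinearMap.lTensor_comp]
          have : h.comp (LinearMap.inl S I S) = Submodule.inclusion hIJ := by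
            ext i
            change ((i : S)) + 0 * a = i
            ring
          rw [this]
          exact h1
        obtain ⟨w, hw⟩ := (hex2 _).1 h4
        have h5 : ((maximalIdeal S).subtype.lTensor T) w = 0 := by
          have : (LinearMap.snd S I S).comp κ = (maximalIdeal S).subtype := rfl
          rw [← this, LinearMap.lTensor_comp, LinearMap.comp_apply, hw, ← LinearMap.comp_apply,
            ← LinearMap.lTensor_comp]
          have : (LinearMap.snd S I S).comp (LinearMap.inl S I S) = 0 := by
            ext; rfl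
          rw [this, LinearMap.lTensor_zero, LinearMap.zero_apply]
        have h6 : w = 0 := (injective_iff_map_eq_zero _).1 hn' w h5
        rw [h6, map_zero] at hw
        have h7 := congrArg ((LinearMap.fst S I S).lTensor T) hw
        rw [map_zero, ← LinearMap.comp_apply, ← LinearMap.lTensor_comp] at h7
        have : (LinearMap.fst S I S).comp (LinearMap.inl S I S) = LinearMap.id := by
          ext; rfl
        rw [this, LinearMap.lTensor_id, LinearMap.id_apply] at h7
        exact h7.symm
  rw [Module.Flat.iff_lTensor_injective']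
  intro I
  rw [← mu_injective_iff, injective_iff_map_eq_zero]
  intro u hu
  obtain ⟨r, hr⟩ := Ideal.exists_pow_inf_eq_pow_smul (maximalIdeal S) (M := S) I
  -- `u` is divisible by all powers of the maximal ideal of `S`
  have hmem : ∀ j : ℕ, u ∈ (maximalIdeal S ^ j • (⊤ : Submodule S (T ⊗[S] I))) := by
    intro j
    let P : Ideal S := maximalIdeal S ^ (j + r)
    let J : Ideal S := I ⊔ P
    let K : Ideal S := I ⊓ P
    have hIJ : I ≤ J := le_sup_left
    have hPJ : P ≤ J := le_sup_right
    have hKI : K ≤ I := inf_le_left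
    have hKP : K ≤ P := inf_le_right
    have hJ := hA J ⟨j + r, le_sup_right⟩
    have h1 : io T hIJ u = 0 := by
      rw [injective_iff_map_eq_zero] at hJ
      exact hJ _ (by rw [mu_io, hu])
    let h : (I × P) →ₗ[S] J := LinearMap.coprod (Submodule.inclusion hIJ)
      (Submodule.inclusion hPJ)
    let κ : K →ₗ[S] (I × P) := LinearMap.prod (Submodule.inclusion hKI)
      (-(Submodule.inclusion hKP))
    have hh : ∀ (i : I) (s : P), ((h (i, s) : J) : S) = i + s := fun i s => rfl
    have hκ : ∀ a : K, κ a = (⟨a, hKI a.2⟩, -⟨a, hKP a.2⟩) := fun r => rfl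
    have hsur : Surjective h := by
      rintro ⟨y, hy⟩
      obtain ⟨b, hb, c, hc, rfl⟩ := Submodule.mem_sup.1 hy
      exact ⟨(⟨b, hb⟩, ⟨c, hc⟩), Subtype.ext rfl⟩
    have hex : Exact κ h := by
      rintro ⟨i, s⟩
      constructor
      · intro h0
        have h2 : (i : S) + s = 0 := by
          rw [← hh, h0]; rfl
        have h3 : (i : S) ∈ P := by
          have : (i : S) = -(s : S) := by linear_combination h2
          rw [this]; exact neg_mem s.2
        refine ⟨⟨i, i.2, h3⟩, ?_⟩
        rw [hκ]
        refine Prod.ext rfl (Subtype.ext ?_)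
        change -(i : S) = s
        linear_combination -h2
      · rintro ⟨a, ha⟩
        rw [← ha, hκ]
        apply Subtype.ext
        rw [hh]
        change (a : S) + -(a : S) = 0
        ring
    have hex2 := lTensor_exact T hex hsur
    have h4 : (h.lTensor T) ((LinearMap.inl S I P).lTensor T u) = 0 := by
      rw [← LinearMap.comp_apply, ← LinearMap.lTensor_comp]
      have : h.comp (LinearMap.inl S I P) = Submodule.inclusion hIJ := by
        ext i
        change ((i : S)) + 0 = i
        ring
      rw [this]
      exact h1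
    obtain ⟨w, hw⟩ := (hex2 _).1 h4
    have h7 := congrArg ((LinearMap.fst S I P).lTensor T) hw
    rw [← LinearMap.comp_apply, ← LinearMap.comp_apply, ← LinearMap.lTensor_comp,
      ← LinearMap.lTensor_comp] at h7
    have e1 : (LinearMap.fst S I P).comp (LinearMap.inl S I P) = LinearMap.id := by
      ext; rfl
    have e2 : (LinearMap.fst S I P).comp κ = Submodule.inclusion hKI := rfl
    rw [e1, e2, LinearMap.lTensor_id, LinearMap.id_apply] at h7
    rw [← h7]
    clear h7 hw
    induction w using TensorProduct.induction_on with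
    | zero => rw [map_zero]; exact zero_mem _
    | tmul y a =>
      rw [LinearMap.lTensor_tmul]
      have ha : Submodule.inclusion hKI a ∈ (maximalIdeal S ^ j • (⊤ : Submodule S I)) := by
        rw [Submodule.mem_smul_top_iff]
        have h8 : (a : S) ∈ maximalIdeal S ^ (j + r) • (⊤ : Submodule S S) ⊓ I := by
          refine ⟨?_, hKI a.2⟩
          have := hKP a.2
          rw [smul_eq_mul, Ideal.mul_top]
          exact this
        rw [hr (j + r) (by omega), Nat.add_sub_cancel] at h8
        exact Submodule.smul_mono le_rfl inf_le_right h8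
      refine Submodule.smul_induction_on ha ?_ ?_
      · intro b hb x _
        rw [TensorProduct.tmul_smul]
        exact Submodule.smul_mem_smul hb Submodule.mem_top
      · intro x x' hx hx'
        rw [TensorProduct.tmul_add]
        exact add_mem hx hx'
    | add a b ha hb => rw [map_add]; exact add_mem ha hb
  -- Krull's intersection theorem
  have hne : maximalIdeal T ≠ ⊤ := (maximalIdeal.isMaximal T).ne_top
  have hK := Ideal.iInf_pow_smul_eq_bot_of_isLocalRing (M := T ⊗[S] I) _ hne
  have hu2 : u ∈ (⨅ i : ℕ, maximalIdeal T ^ i • ⊤ : Submodule T (T ⊗[S] I)) := by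
    rw [Submodule.mem_iInf]
    intro j
    refine Submodule.smul_induction_on (hmem j) ?_ ?_
    · intro b hb x _
      have h9 : algebraMap S T b ∈ maximalIdeal T ^ j := by
        have h10 := Ideal.mem_map_of_mem (algebraMap S T) hb
        rw [Ideal.map_pow] at h10
        exact Ideal.pow_right_mono hloc j h10
      rw [← algebraMap_smul T b x]
      exact Submodule.smul_mem_smul h9 Submodule.mem_top
    · intro x y hx hy
      exact add_mem hx hy
  rw [hK] at hu2
  exact (Submodule.mem_bot T).1 hu2

/-- **Kunz**: the Frobenius map of a regular local ring is flat (`q` arbitrary such that `s ↦ s ^ q`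
is a homomorphism). -/
theorem frob_flat (q : ℕ) (hq : q ≠ 0) (S : Type u) [CommRing S] [IsRegularLocalRing S]
    (T : Type v) [CommRing T] [Algebra S T] (ψ : S ≃+* T) (hψ : ∀ s, algebraMap S T s = ψ s ^ q) :
    Module.Flat S T := by
  obtain ⟨d, hd⟩ := Pool.Agent.H379R3.exists_dim_eq (B := S)
  obtain ⟨rs, h1, h2⟩ := frob_weaklyRegular q hq d S T ψ hψ hd
  have hT1 : IsLocalRing T := ψ.isLocalRing
  have hT2 : IsNoetherianRing T := isNoetherianRing_of_ringEquiv S ψ
  refine flat_of_local T ?_ ?_
  · rw [Ideal.map_le_iff_le_comap]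
    intro s hs
    rw [Ideal.mem_comap, hψ, mem_maximalIdeal, mem_nonunits_iff, isUnit_pow_iff hq]
    rw [mem_maximalIdeal, mem_nonunits_iff] at hs
    intro h
    exact hs ((isUnit_map_iff ψ s).1 h)
  · rw [← h1]
    exact mu_injective_of_regular T rs h2

theorem charP_localization (R : Type u) [CommRing R] (p : ℕ) [hp : Fact p.Prime] [CharP R p]
    (J : Ideal R) [J.IsPrime] : CharP (Localization.AtPrime J) p := by
  rw [CharP.charP_iff_prime_eq_zero hp.out, ← map_natCast (algebraMap R (Localization.AtPrime J)),
    CharP.cast_eq_zero, map_zero]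

/-- **Kunz**: all iterates of the Frobenius map of a regular ring are flat. -/
theorem regular_frob_flat (R : Type u) [CommRing R] [IsRegularRing R] (p : ℕ) [hp : Fact p.Prime]
    [CharP R p] (e : ℕ) : (iterateFrobenius R p e).Flat := by
  apply RingHom.Flat.ofLocalizationPrime
  intro J hJ
  have hc : Ideal.comap (iterateFrobenius R p e) J = J := by
    ext x
    rw [Ideal.mem_comap, iterateFrobenius_def]
    exact hJ.pow_mem_iff_mem _ (pow_pos hp.out.pos e)
  have key : ∀ (I : Ideal R) [I.IsPrime] (h : I = Ideal.comap (iterateFrobenius R p e) J),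
      (Localization.localRingHom I J (iterateFrobenius R p e) h).Flat := by
    intro I _ h
    obtain rfl : I = J := h.trans hc
    have hch := charP_localization R p I
    have h1 : Localization.localRingHom I I (iterateFrobenius R p e) h =
        iterateFrobenius (Localization.AtPrime I) p e := by
      refine IsLocalization.ringHom_ext I.primeCompl ?_
      ext r
      rw [RingHom.comp_apply, RingHom.comp_apply, Localization.localRingHom_to_map,
        iterateFrobenius_def, iterateFrobenius_def, map_pow]
    have hq : p ^ e ≠ 0 := (pow_pos hp.out.pos e).ne'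
    have hr : IsRegularLocalRing (Localization.AtPrime I) := inferInstance
    exact @frob_flat (p ^ e) hq (Localization.AtPrime I) _ hr (Localization.AtPrime I) _
      (Localization.localRingHom I I (iterateFrobenius R p e) h).toAlgebra (RingEquiv.refl _) (by
        intro s
        change (Localization.localRingHom I I (iterateFrobenius R p e) h) s = _
        rw [h1, iterateFrobenius_def, RingEquiv.refl_apply])
  exact key _ rfl

end Pool.Agent.N88.FPR
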