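import Mathlib

/-!
# The order of vanishing on a regular ring with large regular loci

Helper file (helper88) for `MP_9ff724_al`.
-/

set_option autoImplicit false

universe u v w

open IsLocalRing

namespace Pool.Agent.N88.FPR

variable {R : Type u} [CommRing R]

/-- `c` lies in the symbolic power `Q^(N)`. -/
def SP (Q : Ideal R) (N : ℕ) (c : R) : Prop := ∃ s ∉ Q, s * c ∈ Q ^ N

theorem SP.mono {Q : Ideal R} {N M : ℕ} {c : R} (h : SP Q N c) (hM : M ≤ N) : SP Q M c := by
  obtain ⟨s, hs, hc⟩ := h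
  exact ⟨s, hs, Ideal.pow_le_pow_right hM hc⟩

theorem sp_iff (Q : Ideal R) [Q.IsPrime] (N : ℕ) (c : R) :
    algebraMap R (Localization.AtPrime Q) c ∈ maximalIdeal (Localization.AtPrime Q) ^ N ↔
      SP Q N c := by
  rw [← Localization.AtPrime.map_eq_maximalIdeal, ← Ideal.map_pow,
    IsLocalization.algebraMap_mem_map_algebraMap_iff Q.primeCompl]
  rfl

theorem exists_not_sp [IsNoetherianRing R] (P : Ideal R) [P.IsPrime] (c : R)
    (hc : ∀ s ∉ P, s * c ≠ 0) : ∃ N, ¬ SP P N c := by
  by_contra hcon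
  push Not at hcon
  have h1 : algebraMap R (Localization.AtPrime P) c ∈
      ⨅ N, maximalIdeal (Localization.AtPrime P) ^ N := by
    rw [Ideal.mem_iInf]
    exact fun N => (sp_iff P N c).2 (hcon N)
  have hnoeth : IsNoetherianRing (Localization.AtPrime P) :=
    IsLocalization.isNoetherianRing P.primeCompl _ inferInstance
  rw [Ideal.iInf_pow_eq_bot_of_isLocalRing _ (maximalIdeal.isMaximal _).ne_top, Ideal.mem_bot,
    IsLocalization.map_eq_zero_iff P.primeCompl] at h1
  obtain ⟨⟨s, hs⟩, h2⟩ := h1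
  exact hc s hs h2

/-- common denominators -/
theorem exists_common [IsNoetherianRing R] (P K Q : Ideal R) [Q.IsPrime]
    (h : ∀ x ∈ P, ∃ s ∉ Q, s * x ∈ K) : ∃ g ∉ Q, ∀ x ∈ P, g * x ∈ K := by
  classical
  obtain ⟨T, hT⟩ := P.fg_of_isNoetherianRing
  have hTP : ∀ x ∈ T, x ∈ P := fun x hx => hT ▸ Ideal.subset_span hx
  choose! s hs hsK using h
  refine ⟨∏ x ∈ T, s x, ?_, ?_⟩
  · rw [Ideal.IsPrime.prod_mem_iff]
    rintro ⟨x, hx, hx2⟩
    exact hs x (hTP x hx) hx2
  · intro x hx
    rw [← hT] at hx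
    induction hx using Submodule.span_induction with
    | mem y hy =>
      rw [← Finset.prod_erase_mul T s hy, mul_assoc]
      exact Ideal.mul_mem_left _ _ (hsK y (hTP y hy))
    | zero => rw [mul_zero]; exact zero_mem _
    | add y z _ _ hy hz => rw [mul_add]; exact add_mem hy hz
    | smul a y _ hy =>
      rw [smul_eq_mul, mul_left_comm]
      exact Ideal.mul_mem_left _ _ hy

/-- generators of a prime with regular localization -/
theorem exists_local_gens [IsNoetherianRing R] (P : Ideal R) [P.IsPrime]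
    (hreg : IsRegularLocalRing (Localization.AtPrime P)) :
    ∃ (h : ℕ) (z : Fin h → R) (g : R), P.height = h ∧ (∀ i, z i ∈ P) ∧ g ∉ P ∧
      ∀ x ∈ P, g * x ∈ Ideal.span (Set.range z) := by
  classical
  set m := maximalIdeal (Localization.AtPrime P) with hm
  have hfg : m.FG := m.fg_of_isNoetherianRing
  have hfin := Submodule.FG.finite_generators hfg
  have hht : P.height = (m.spanFinrank : ℕ) := by
    have h1 := IsRegularLocalRing.spanFinrank_maximalIdeal (R := Localization.AtPrime P)
    rw [IsLocalization.AtPrime.ringKrullDim_eq_height P (Localization.AtPrime P)] at h1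
    exact_mod_cast h1.symm
  have hcard : m.generators.ncard = m.spanFinrank := Submodule.FG.generators_ncard hfg
  have : Finite m.generators := hfin
  have hcard2 : Nat.card m.generators = m.spanFinrank := by
    rw [Nat.card_coe_set_eq, hcard]
  let e : Fin m.spanFinrank ≃ m.generators := (Finite.equivFinOfCardEq hcard2).symm
  have hsurj : ∀ v : Localization.AtPrime P, ∃ (r s : R), s ∉ P ∧
      v * algebraMap R _ s = algebraMap R _ r := by
    intro v
    obtain ⟨⟨r, s, hs⟩, h⟩ := IsLocalization.surj P.primeCompl v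
    exact ⟨r, s, hs, h⟩
  choose r s hs hrs using hsurj
  have hgm : ∀ i, (e i : Localization.AtPrime P) ∈ m := fun i => by
    have := (e i).2
    have h2 : m.generators ⊆ m := by
      intro x hx
      have h3 := Submodule.span_generators m
      rw [← h3]
      exact Submodule.subset_span hx
    exact h2 this
  have hz : ∀ i, r (e i) ∈ P := by
    intro i
    rw [← IsLocalization.AtPrime.to_map_mem_maximal_iff (Localization.AtPrime P) P, ← hrs]
    exact Ideal.mul_mem_right _ _ (hgm i)
  have hspan : m = (Ideal.span (Set.range fun i => r (e i))).map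
      (algebraMap R (Localization.AtPrime P)) := by
    apply le_antisymm
    · conv_lhs => rw [← Submodule.span_generators m]
      rw [Submodule.span_le]
      intro v hv
      have h4 := hrs v
      have hu : IsUnit (algebraMap R (Localization.AtPrime P) (s v)) :=
        IsLocalization.map_units _ (⟨s v, hs v⟩ : P.primeCompl)
      have h5 : algebraMap R (Localization.AtPrime P) (r v) ∈
          (Ideal.span (Set.range fun i => r (e i))).map
            (algebraMap R (Localization.AtPrime P)) := by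
        apply Ideal.mem_map_of_mem
        apply Ideal.subset_span
        refine ⟨e.symm ⟨v, hv⟩, ?_⟩
        change r (e (e.symm ⟨v, hv⟩)) = r v
        rw [e.apply_symm_apply]
      rw [← h4] at h5
      exact (Ideal.mul_unit_mem_iff_mem _ hu).1 h5
    · rw [Ideal.map_le_iff_le_comap, Ideal.span_le]
      rintro _ ⟨i, rfl⟩
      change algebraMap R _ (r (e i)) ∈ m
      rw [← hrs]
      exact Ideal.mul_mem_right _ _ (hgm i)
  obtain ⟨g, hg, hgK⟩ := exists_common P (Ideal.span (Set.range fun i => r (e i))) P (by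
    intro x hx
    have h6 : algebraMap R (Localization.AtPrime P) x ∈ m :=
      (IsLocalization.AtPrime.to_map_mem_maximal_iff (Localization.AtPrime P) P x).2 hx
    rw [hspan, IsLocalization.algebraMap_mem_map_algebraMap_iff P.primeCompl] at h6
    exact h6)
  exact ⟨m.spanFinrank, fun i => r (e i), g, hht, hz, hg, hgK⟩

/-- heights add up in quotients -/
theorem height_add_le [IsNoetherianRing R] (P : Ideal R) [P.IsPrime] (q : Ideal (R ⧸ P))
    [q.IsPrime] : P.height + q.height ≤ (q.comap (Ideal.Quotient.mk P)).height := by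
  obtain ⟨l, hl, hlen⟩ := Ideal.exists_ltSeries_length_eq_height q
  have hP : ∀ x : PrimeSpectrum (R ⧸ P), P ≤ x.asIdeal.comap (Ideal.Quotient.mk P) := by
    intro x
    have : P = RingHom.ker (Ideal.Quotient.mk P) := Ideal.mk_ker.symm
    conv_lhs => rw [this]
    exact Ideal.comap_mono bot_le
  have key : ∀ (n : ℕ) (hn : n < l.length + 1),
      P.height + n ≤ ((l ⟨n, hn⟩).asIdeal.comap (Ideal.Quotient.mk P)).height := by
    intro n
    induction n with
    | zero =>
      intro hn
      rw [Nat.cast_zero, add_zero]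
      exact Ideal.height_mono (hP _)
    | succ n ih =>
      intro hn
      have h1 := ih (by omega)
      have hlt : l ⟨n, by omega⟩ < l ⟨n + 1, hn⟩ := l.strictMono (by simp)
      have hlt2 : (l ⟨n, by omega⟩).asIdeal.comap (Ideal.Quotient.mk P) <
          (l ⟨n + 1, hn⟩).asIdeal.comap (Ideal.Quotient.mk P) := by
        refine lt_of_le_of_ne (Ideal.comap_mono hlt.le) fun h => hlt.ne ?_
        exact PrimeSpectrum.ext (Ideal.comap_injective_of_surjective _
          Ideal.Quotient.mk_surjective h)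
      have h2 := Ideal.height_add_one_le_of_lt_of_isPrime hlt2
      rw [Nat.cast_add, Nat.cast_one, ← add_assoc]
      exact (add_le_add_left h1 1).trans h2
  have h3 := key l.length (by omega)
  have h4 : l ⟨l.length, by omega⟩ = ⟨q, inferInstance⟩ := hl
  rw [h4] at h3
  rw [← hlen]
  exact h3

theorem eval_scale {σ : Type*} {n : ℕ} {F : MvPolynomial σ R} (hF : F.IsHomogeneous n) (r : R)
    (x : σ → R) : MvPolynomial.eval (fun i => r * x i) F = r ^ n * MvPolynomial.eval x F := by
  classical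
  rw [MvPolynomial.eval_eq, MvPolynomial.eval_eq, Finset.mul_sum]
  refine Finset.sum_congr rfl fun m hm => ?_
  have h1 : m.degree = n := by
    have := hF (MvPolynomial.mem_support_iff.1 hm)
    rw [Finsupp.weight_apply, Finsupp.sum] at this
    rw [Finsupp.degree_apply, ← this]
    simp
  have h2 : ∏ i ∈ m.support, (r * x i) ^ m i = r ^ n * ∏ i ∈ m.support, x i ^ m i := by
    rw [← h1, Finsupp.degree_apply, ← Finset.prod_pow_eq_pow_sum, ← Finset.prod_mul_distrib]
    exact Finset.prod_congr rfl fun i _ => mul_pow _ _ _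
  rw [h2]
  ring

theorem eval_mem_pow {σ : Type*} {n : ℕ} {F : MvPolynomial σ R} (hF : F.IsHomogeneous n)
    (P : Ideal R) (x : σ → R) (hx : ∀ i, x i ∈ P) (hc : ∀ m, F.coeff m ∈ P) :
    MvPolynomial.eval x F ∈ P ^ (n + 1) := by
  classical
  rw [MvPolynomial.eval_eq]
  refine Ideal.sum_mem _ fun m hm => ?_
  have h1 : m.degree = n := by
    have := hF (MvPolynomial.mem_support_iff.1 hm)
    rw [Finsupp.weight_apply, Finsupp.sum] at this
    rw [Finsupp.degree_apply, ← this]
    simp
  rw [pow_succ, mul_comm (P ^ n)]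
  refine Ideal.mul_mem_mul (hc m) ?_
  rw [← h1, Finsupp.degree_apply, ← Finset.prod_pow_eq_pow_sum]
  exact Ideal.prod_mem_prod fun i _ => Ideal.pow_mem_pow (hx i) _

/-- The good form of an element at a non-maximal prime. -/
theorem good_form [IsNoetherianRing R] (P : Ideal R) [P.IsPrime] (hP : ¬ P.IsMaximal)
    (hreg : IsRegularLocalRing (Localization.AtPrime P)) (c : R) (hcP : c ∈ P)
    (hc : ∀ s ∉ P, s * c ≠ 0) :
    ∃ (h : ℕ) (w : R) (Y : Finset R) (n : ℕ) (G S U : R), P.height = (h + 1 : ℕ) ∧ Y.card ≤ h ∧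
      w ∈ P ∧ (∀ y ∈ Y, y ∈ P) ∧ G ∉ P ∧
      (∀ x ∈ P, G * x ∈ Ideal.span {w} ⊔ Ideal.span (Y : Set R)) ∧ S ∉ P ∧ U ∉ P ∧
      S * c - U * w ^ n ∈ Ideal.span (Y : Set R) := by
  classical
  obtain ⟨h, z, g, hht, hz, hg, hgK⟩ := exists_local_gens P hreg
  -- the order
  have hex := exists_not_sp P c hc
  have hN := Nat.find_spec hex
  have hN0 : Nat.find hex ≠ 0 := by
    intro h0
    rw [h0] at hN
    exact hN ⟨1, fun h => (inferInstance : P.IsPrime).ne_top ((Ideal.eq_top_iff_one _).2 h), by simp⟩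
  obtain ⟨n, hn⟩ := Nat.exists_eq_succ_of_ne_zero hN0
  rw [hn] at hN
  have hn1 : SP P n c := by
    by_contra h0
    exact Nat.find_min hex (by omega) h0
  have hn0 : n ≠ 0 := by
    rintro rfl
    exact hN ⟨1, fun h => (inferInstance : P.IsPrime).ne_top ((Ideal.eq_top_iff_one _).2 h), by
      simpa using hcP⟩
  obtain ⟨s, hs, hsc⟩ := hn1
  -- a homogeneous polynomial
  have hpow : g ^ n * (s * c) ∈ Ideal.span (Set.range z) ^ n := by
    have h1 : Ideal.span {g} * P ≤ Ideal.span (Set.range z) := by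
      rw [Ideal.span_singleton_mul_le_iff]
      exact fun x hx => hgK x hx
    have h2 := Ideal.pow_right_mono h1 n
    rw [mul_pow, Ideal.span_singleton_pow] at h2
    exact h2 (Ideal.mul_mem_mul (Ideal.mem_span_singleton_self _) hsc)
  obtain ⟨F, hF, hFe⟩ := (Ideal.mem_span_pow_iff_exists_isHomogeneous z _).1 hpow
  have hgn : g ^ n ∉ P := fun h0 => hg ((inferInstance : P.IsPrime).mem_of_pow_mem _ h0)
  have hcoef : ∃ m, F.coeff m ∉ P := by
    by_contra h0
    push Not at h0
    refine hN ⟨g ^ n * s, (inferInstance : P.IsPrime).mul_notMem hgn hs, ?_⟩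
    rw [mul_assoc, ← hFe]
    exact eval_mem_pow hF P z hz h0
  have hinf : Infinite (R ⧸ P) := by
    by_contra h0
    have : Finite (R ⧸ P) := not_infinite_iff_finite.1 h0
    exact hP (Ideal.Quotient.maximal_of_isField P (Finite.isField_of_domain (R ⧸ P)))
  let Fb : MvPolynomial (Fin h) (R ⧸ P) := MvPolynomial.map (Ideal.Quotient.mk P) F
  have hFb : Fb ≠ 0 := by
    obtain ⟨m, hm⟩ := hcoef
    intro h0
    apply hm
    have := congrArg (MvPolynomial.coeff m) h0
    rw [MvPolynomial.coeff_map, MvPolynomial.coeff_zero, Ideal.Quotient.eq_zero_iff_mem] at this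
    exact this
  have hFbh : Fb.IsHomogeneous n := hF.map _
  obtain ⟨ab, hab⟩ : ∃ ab : Fin h → R ⧸ P, MvPolynomial.eval ab Fb ≠ 0 := by
    by_contra h0
    push Not at h0
    exact hFb (MvPolynomial.funext fun x => by rw [h0 x, map_zero])
  have hsur : ∀ i, ∃ r : R, Ideal.Quotient.mk P r = ab i := fun i => Ideal.Quotient.mk_surjective _
  choose a ha using hsur
  have hFa : MvPolynomial.eval a F ∉ P := by
    rw [← Ideal.Quotient.eq_zero_iff_mem]
    have h1 : Ideal.Quotient.mk P (MvPolynomial.eval a F) = MvPolynomial.eval ab Fb := by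
      rw [MvPolynomial.eval_map, ← MvPolynomial.eval₂_id, MvPolynomial.hom_eval₂,
        RingHomCompTriple.comp_eq]
      congr 1
      funext i
      exact ha i
    rw [h1]
    exact hab
  obtain ⟨j, hj⟩ : ∃ j, a j ∉ P := by
    by_contra h0
    push Not at h0
    apply hab
    have h1 : ab = fun _ => 0 * 0 := by
      funext i
      rw [← ha, Ideal.Quotient.eq_zero_iff_mem.2 (h0 i), mul_zero]
    rw [h1, eval_scale hFbh, zero_pow hn0, zero_mul]
  -- the new coordinates
  let Y : Finset R := (Finset.univ.erase j).image fun i => a j * z i - a i * z j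
  have hYi : ∀ i, a j * z i - a i * z j ∈ Ideal.span (Y : Set R) := by
    intro i
    by_cases hij : i = j
    · subst hij
      rw [sub_self]
      exact zero_mem _
    · apply Ideal.subset_span
      rw [Finset.mem_coe, Finset.mem_image]
      exact ⟨i, Finset.mem_erase.2 ⟨hij, Finset.mem_univ _⟩, rfl⟩
  obtain ⟨h', rfl⟩ : ∃ h', h = h' + 1 := by
    have := j.pos
    exact ⟨h - 1, by omega⟩
  refine ⟨h', z j, Y, n, a j * g, a j ^ n * (g ^ n * s), MvPolynomial.eval a F, hht, ?_, hz j,
    ?_, (inferInstance : P.IsPrime).mul_notMem hj hg, ?_, ?_, hFa, ?_⟩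
  · refine Finset.card_image_le.trans ?_
    rw [Finset.card_erase_of_mem (Finset.mem_univ _), Finset.card_univ, Fintype.card_fin]
    omega
  · intro y hy
    obtain ⟨i, -, rfl⟩ := Finset.mem_image.1 hy
    exact sub_mem (Ideal.mul_mem_left _ _ (hz i)) (Ideal.mul_mem_left _ _ (hz j))
  · intro x hx
    have h1 := hgK x hx
    have h2 : ∀ y ∈ Ideal.span (Set.range z), a j * y ∈ Ideal.span {z j} ⊔
        Ideal.span (Y : Set R) := by
      intro y hy
      induction hy using Submodule.span_induction with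
      | mem y hy =>
        obtain ⟨i, rfl⟩ := hy
        have : a j * z i = a i * z j + (a j * z i - a i * z j) := by ring
        rw [this]
        exact add_mem (Ideal.mem_sup_left (Ideal.mul_mem_left _ _
          (Ideal.mem_span_singleton_self _))) (Ideal.mem_sup_right (hYi i))
      | zero => rw [mul_zero]; exact zero_mem _
      | add y z _ _ hy hz => rw [mul_add]; exact add_mem hy hz
      | smul b y _ hy =>
        rw [smul_eq_mul, mul_left_comm]
        exact Ideal.mul_mem_left _ _ hy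
    rw [mul_assoc]
    exact h2 _ h1
  · exact (inferInstance : P.IsPrime).mul_notMem
      (fun h0 => hj ((inferInstance : P.IsPrime).mem_of_pow_mem _ h0))
      ((inferInstance : P.IsPrime).mul_notMem hgn hs)
  · have h3 : a j ^ n * (g ^ n * s) * c = MvPolynomial.eval (fun i => a j * z i) F := by
      rw [eval_scale hF, hFe]
      ring
    have h4 : MvPolynomial.eval a F * z j ^ n = MvPolynomial.eval (fun i => z j * a i) F := by
      rw [eval_scale hF]
      ring
    rw [h3, h4, ← Ideal.Quotient.eq_zero_iff_mem, map_sub, sub_eq_zero]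
    have h5 : ∀ x : Fin (h' + 1) → R, Ideal.Quotient.mk (Ideal.span (Y : Set R))
        (MvPolynomial.eval x F) = MvPolynomial.eval₂ (Ideal.Quotient.mk (Ideal.span (Y : Set R)))
          (fun i => Ideal.Quotient.mk (Ideal.span (Y : Set R)) (x i)) F := by
      intro x
      rw [← MvPolynomial.eval₂_id, MvPolynomial.hom_eval₂, RingHomCompTriple.comp_eq]
    rw [h5, h5]
    congr 1
    funext i
    rw [Ideal.Quotient.eq]
    have := hYi i
    rwa [mul_comm (a i)] at this

theorem sup_pow_le (w : R) (L : Ideal R) (m : ℕ) :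
    (Ideal.span {w} ⊔ L) ^ m ≤ Ideal.span {w ^ m} ⊔ L := by
  induction m with
  | zero =>
    rw [pow_zero, pow_zero, Ideal.span_singleton_one, top_sup_eq]
    exact le_top
  | succ m ih =>
    rw [pow_succ]
    refine (Ideal.mul_mono_left ih).trans ?_
    rw [Ideal.sup_mul, Ideal.mul_sup, Ideal.span_singleton_mul_span_singleton, ← pow_succ]
    have i1 : Ideal.span {w ^ m} * L ≤ L := Ideal.mul_le_right
    have i2 : L * (Ideal.span {w} ⊔ L) ≤ L := Ideal.mul_le_left
    exact sup_le (sup_le le_sup_left (i1.trans le_sup_right)) (i2.trans le_sup_right)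

/-- The order of `c` is bounded on a neighbourhood of `P` in `V(P)`, pointwise form. -/
theorem not_sp_of_form [IsNoetherianRing R] (P : Ideal R) [P.IsPrime] (c : R) (h : ℕ) (w : R)
    (Y : Finset R) (n : ℕ) (G S U : R) (hht : P.height = (h + 1 : ℕ)) (hY : Y.card ≤ h)
    (hw : w ∈ P) (hYP : ∀ y ∈ Y, y ∈ P)
    (hG : ∀ x ∈ P, G * x ∈ Ideal.span {w} ⊔ Ideal.span (Y : Set R))
    (hS : S * c - U * w ^ n ∈ Ideal.span (Y : Set R)) (q : Ideal (R ⧸ P)) [q.IsPrime]
    (hreg : IsRegularLocalRing (Localization.AtPrime q))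
    (hGq : G ∉ q.comap (Ideal.Quotient.mk P)) (hUq : U ∉ q.comap (Ideal.Quotient.mk P)) :
    ¬ SP (q.comap (Ideal.Quotient.mk P)) (n + 1) c := by
  classical
  rintro ⟨s, hs, hsc⟩
  set Q := q.comap (Ideal.Quotient.mk P) with hQdef
  have hQ : Q.IsPrime := inferInstance
  have hPQ : P ≤ Q := by
    intro x hx
    rw [hQdef, Ideal.mem_comap, Ideal.Quotient.eq_zero_iff_mem.2 hx]
    exact zero_mem _
  obtain ⟨k, z, g, hk, hz, hg, hgK⟩ := exists_local_gens q hreg
  -- lift the generators
  choose zl hzl using fun i => Ideal.Quotient.mk_surjective (I := P) (z i)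
  obtain ⟨gl, rfl⟩ := Ideal.Quotient.mk_surjective g
  let Z : Finset R := Finset.univ.image zl
  have hZ : Z.card ≤ k := Finset.card_image_le.trans (by rw [Finset.card_univ, Fintype.card_fin])
  have hZQ : ∀ y ∈ Z, y ∈ Q := by
    intro y hy
    obtain ⟨i, -, rfl⟩ := Finset.mem_image.1 hy
    rw [hQdef, Ideal.mem_comap, hzl]
    exact hz i
  let L : Ideal R := Ideal.span ((Y ∪ Z : Finset R) : Set R)
  have hYL : Ideal.span (Y : Set R) ≤ L := Ideal.span_mono (by
    intro x hx
    exact Finset.mem_coe.2 (Finset.mem_union_left _ hx))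
  have hZL : Ideal.span (Z : Set R) ≤ L := Ideal.span_mono (by
    intro x hx
    exact Finset.mem_coe.2 (Finset.mem_union_right _ hx))
  have hglQ : gl ∉ Q := hg
  have hQmul : ∀ x ∈ Q, gl * x ∈ Ideal.span (Z : Set R) ⊔ P := by
    intro x hx
    have h1 := hgK (Ideal.Quotient.mk P x) hx
    have h2 : Ideal.span (Set.range z) = (Ideal.span (Z : Set R)).map (Ideal.Quotient.mk P) := by
      rw [Ideal.map_span]
      congr 1
      ext y
      constructor
      · rintro ⟨i, rfl⟩
        exact ⟨zl i, Finset.mem_coe.2 (Finset.mem_image_of_mem _ (Finset.mem_univ _)), hzl i⟩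
      · rintro ⟨x, hx, rfl⟩
        obtain ⟨i, -, rfl⟩ := Finset.mem_image.1 (Finset.mem_coe.1 hx)
        exact ⟨i, (hzl i).symm⟩
    rw [h2, ← map_mul, ← Ideal.mem_comap, Ideal.comap_map_of_surjective _
      Ideal.Quotient.mk_surjective, ← RingHom.ker_eq_comap_bot, Ideal.mk_ker] at h1
    exact h1
  let γ : R := G * gl
  have hγ : γ ∉ Q := hQ.mul_notMem hGq hglQ
  have hγQ : ∀ x ∈ Q, γ * x ∈ Ideal.span {w} ⊔ L := by
    intro x hx
    obtain ⟨a, ha, b, hb, hab⟩ := Submodule.mem_sup.1 (hQmul x hx)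
    have h1 : γ * x = G * a + G * b := by
      change G * gl * x = _
      rw [mul_assoc, ← hab]
      ring
    rw [h1]
    have h2 : Ideal.span {w} ⊔ Ideal.span (Y : Set R) ≤ Ideal.span {w} ⊔ L :=
      sup_le_sup_left hYL _
    exact add_mem (Ideal.mem_sup_right (hZL (Ideal.mul_mem_left _ _ ha))) (h2 (hG b hb))
  -- the power
  have hpow : γ ^ (n + 1) * (s * c) ∈ Ideal.span {w ^ (n + 1)} ⊔ L := by
    have h1 : Ideal.span {γ} * Q ≤ Ideal.span {w} ⊔ L := by
      rw [Ideal.span_singleton_mul_le_iff]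
      exact fun x hx => hγQ x hx
    have h2 := Ideal.pow_right_mono h1 (n + 1)
    rw [mul_pow, Ideal.span_singleton_pow] at h2
    have h3 := h2 (Ideal.mul_mem_mul (Ideal.mem_span_singleton_self _) hsc)
    exact sup_pow_le w L (n + 1) h3
  obtain ⟨a, ha, b, hb, hab⟩ := Submodule.mem_sup.1 hpow
  obtain ⟨t, rfl⟩ := Ideal.mem_span_singleton'.1 ha
  let v : R := γ ^ (n + 1) * s * U - S * t * w
  have hv : v ∉ Q := by
    intro h1
    have h2 : γ ^ (n + 1) * s * U ∈ Q := by
      have : γ ^ (n + 1) * s * U = v + S * t * w := by simp only [v]; ring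
      rw [this]
      exact add_mem h1 (Ideal.mul_mem_left _ _ (hPQ hw))
    exact hQ.mul_notMem (hQ.mul_notMem (fun h0 => hγ (hQ.mem_of_pow_mem _ h0)) hs) hUq h2
  have hvL : v * w ^ n ∈ L := by
    have h1 : v * w ^ n = S * b - γ ^ (n + 1) * s * (S * c - U * w ^ n) := by
      simp only [v]
      have : b = γ ^ (n + 1) * (s * c) - t * w ^ (n + 1) := by rw [← hab]; ring
      rw [this]
      ring
    rw [h1]
    exact sub_mem (Ideal.mul_mem_left _ _ hb) (Ideal.mul_mem_left _ _ (hYL hS))
  -- `Q` is minimal over `L`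
  have hLQ : L ≤ Q := by
    rw [Ideal.span_le]
    intro x hx
    rcases Finset.mem_union.1 (Finset.mem_coe.1 hx) with h1 | h1
    · exact hPQ (hYP x h1)
    · exact hZQ x h1
  have hmin : Q ∈ L.minimalPrimes := by
    refine ⟨⟨hQ, hLQ⟩, ?_⟩
    rintro Q' ⟨hQ', hLQ'⟩ hle x hx
    have hvQ' : v ∉ Q' := fun h0 => hv (hle h0)
    have hwQ' : w ∈ Q' := by
      have h1 := (hQ'.mem_or_mem (hLQ' hvL)).resolve_left hvQ'
      exact hQ'.mem_of_pow_mem _ h1
    have h2 : γ * x ∈ Q' := by
      have h3 : Ideal.span {w} ⊔ L ≤ Q' := sup_le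
        ((Ideal.span_singleton_le_iff_mem _).2 hwQ') hLQ'
      exact h3 (hγQ x hx)
    exact (hQ'.mem_or_mem h2).resolve_left fun h0 => hγ (hle h0)
  have h1 := Ideal.height_le_card_of_mem_minimalPrimes_span_finset hmin
  have h2 := height_add_le P q
  rw [hht, hk, ← hQdef] at h2
  have h3 : (((h + 1 : ℕ) : ℕ∞) + (k : ℕ)) ≤ ((Y ∪ Z).card : ℕ) := h2.trans h1
  have h4 : (h + 1) + k ≤ (Y ∪ Z).card := by exact_mod_cast h3
  have h5 := Finset.card_union_le Y Z
  omega

/-- The regular locus of the domain `R / P` contains a nonempty open set. -/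
def J0 (P : Ideal R) : Prop := ∃ f : R ⧸ P, f ≠ 0 ∧ ∀ (q : Ideal (R ⧸ P)) [q.IsPrime], f ∉ q →
  IsRegularLocalRing (Localization.AtPrime q)

/-- the generic bound -/
theorem generic [IsRegularRing R] (P : Ideal R) [P.IsPrime] (hJ : J0 P) (c : R)
    (hc : ∀ s ∉ P, s * c ≠ 0) :
    ∃ f ∉ P, ∃ N : ℕ, ∀ Q : Ideal R, Q.IsPrime → P ≤ Q → f ∉ Q → ¬ SP Q N c := by
  by_cases hcP : c ∈ P
  swap
  · refine ⟨c, hcP, 1, ?_⟩
    rintro Q hQ - hcQ ⟨s, hs, h⟩
    rw [pow_one] at h
    exact (hQ.mem_or_mem h).elim hs hcQ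
  by_cases hP : P.IsMaximal
  · obtain ⟨N, hN⟩ := exists_not_sp P c hc
    refine ⟨1, fun h => (inferInstance : P.IsPrime).ne_top ((Ideal.eq_top_iff_one _).2 h), N, ?_⟩
    intro Q hQ hPQ _
    rw [← hP.eq_of_le hQ.ne_top hPQ]
    exact hN
  obtain ⟨h, w, Y, n, G, S, U, hht, hY, hw, hYP, hG, hGK, hS, hU, hSc⟩ :=
    good_form P hP inferInstance c hcP hc
  obtain ⟨f0, hf0, hf⟩ := hJ
  obtain ⟨f, rfl⟩ := Ideal.Quotient.mk_surjective f0
  have hfP : f ∉ P := fun h => hf0 (Ideal.Quotient.eq_zero_iff_mem.2 h)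
  have hp : P.IsPrime := inferInstance
  refine ⟨f * G * U, hp.mul_notMem (hp.mul_notMem hfP hG) hU, n + 1, ?_⟩
  intro Q hQ hPQ hfQ
  have hker : RingHom.ker (Ideal.Quotient.mk P) ≤ Q := by rw [Ideal.mk_ker]; exact hPQ
  have hq : (Q.map (Ideal.Quotient.mk P)).IsPrime :=
    Ideal.map_isPrime_of_surjective Ideal.Quotient.mk_surjective hker
  have hcomap : (Q.map (Ideal.Quotient.mk P)).comap (Ideal.Quotient.mk P) = Q := by
    rw [Ideal.comap_map_of_surjective _ Ideal.Quotient.mk_surjective,
      ← RingHom.ker_eq_comap_bot, sup_eq_left]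
    exact hker
  have h1 : f ∉ Q := fun h => hfQ (Ideal.mul_mem_right _ _ (Ideal.mul_mem_right _ _ h))
  have h2 : G ∉ Q := fun h => hfQ (Ideal.mul_mem_right _ _ (Ideal.mul_mem_left _ _ h))
  have h3 : U ∉ Q := fun h => hfQ (Ideal.mul_mem_left _ _ h)
  have hfq : Ideal.Quotient.mk P f ∉ Q.map (Ideal.Quotient.mk P) := by
    rw [← Ideal.mem_comap, hcomap]
    exact h1
  have := not_sp_of_form P c h w Y n G S U hht hY hw hYP hGK hSc
    (Q.map (Ideal.Quotient.mk P)) (hf _ hfq) (by rwa [hcomap]) (by rwa [hcomap])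
  rwa [hcomap] at this

/-- **Boundedness of the order.** -/
theorem bounded_order [IsRegularRing R] (hJ : ∀ P : Ideal R, P.IsPrime → J0 P) (c : R)
    (hc : ∀ P ∈ minimalPrimes R, c ∉ P) :
    ∃ N : ℕ, ∀ Q : Ideal R, Q.IsPrime → ¬ SP Q N c := by
  have hc' : ∀ P : Ideal R, P.IsPrime → ∀ s ∉ P, s * c ≠ 0 := by
    intro P hP s hs h0
    obtain ⟨p, hp, hpP⟩ := Ideal.exists_minimalPrimes_le (bot_le : (⊥ : Ideal R) ≤ P)
    have h1 : s * c ∈ p := by rw [h0]; exact zero_mem _
    rcases hp.1.1.mem_or_mem h1 with h2 | h2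
    · exact hs (hpP h2)
    · exact hc p hp h2
  have key : ∀ I : Ideal R, ∃ N : ℕ, ∀ Q : Ideal R, Q.IsPrime → I ≤ Q → ¬ SP Q N c := by
    intro I
    induction I using WellFoundedGT.induction with
    | ind I ih =>
      by_cases hI : I.IsPrime
      · obtain ⟨f, hf, N, hN⟩ := generic I (hJ I hI) c (hc' I hI)
        have hlt : I < I ⊔ Ideal.span {f} := lt_of_le_of_ne le_sup_left fun h =>
          hf (h ▸ Ideal.mem_sup_right (Ideal.mem_span_singleton_self f))
        obtain ⟨M, hM⟩ := ih _ hlt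
        refine ⟨max N M, fun Q hQ hIQ hsp => ?_⟩
        by_cases hfQ : f ∈ Q
        · exact hM Q hQ (sup_le hIQ ((Ideal.span_singleton_le_iff_mem _).2 hfQ))
            (hsp.mono (le_max_right _ _))
        · exact hN Q hQ hIQ hfQ (hsp.mono (le_max_left _ _))
      · by_cases htop : I = ⊤
        · refine ⟨0, fun Q hQ hIQ => ?_⟩
          rw [htop, top_le_iff] at hIQ
          exact absurd hIQ hQ.ne_top
        · rw [Ideal.isPrime_iff] at hI
          push Not at hI
          obtain ⟨a, b, hab, ha, hb⟩ := hI htop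
          have hlta : I < I ⊔ Ideal.span {a} := lt_of_le_of_ne le_sup_left fun h =>
            ha (h ▸ Ideal.mem_sup_right (Ideal.mem_span_singleton_self a))
          have hltb : I < I ⊔ Ideal.span {b} := lt_of_le_of_ne le_sup_left fun h =>
            hb (h ▸ Ideal.mem_sup_right (Ideal.mem_span_singleton_self b))
          obtain ⟨N, hN⟩ := ih _ hlta
          obtain ⟨M, hM⟩ := ih _ hltb
          refine ⟨max N M, fun Q hQ hIQ hsp => ?_⟩
          rcases hQ.mem_or_mem (hIQ hab) with h1 | h1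
          · exact hN Q hQ (sup_le hIQ ((Ideal.span_singleton_le_iff_mem _).2 h1))
              (hsp.mono (le_max_left _ _))
          · exact hM Q hQ (sup_le hIQ ((Ideal.span_singleton_le_iff_mem _).2 h1))
              (hsp.mono (le_max_right _ _))
  obtain ⟨N, hN⟩ := key ⊥
  exact ⟨N, fun Q hQ => hN Q hQ bot_le⟩

end Pool.Agent.N88.FPR
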